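import Pool.Agent.LibTI52.TI_Main

/-!
Tight immersions of connected sums of `g` copies of `S^k × S^1`, `k ≥ 3`: the codimension is at
most `k + 2`.
-/

set_option autoImplicit false

open scoped Manifold ContDiff InnerProductSpace Topology

namespace Pool.Agent.Results.MP_03b1c1_gt.CodimensionBound

open Pool.TI52 (EE Bil loc ht Hess)

/-- the value of a bilinear form -/
noncomputable def val {n : ℕ} (B : Bil n) (u v : EE n) : ℝ := B u v

/-- the dimension of the subspace `W` is `d` -/
def HasDim {n : ℕ} (W : Submodule ℝ (EE n)) (d : ℕ) : Prop := Module.finrank ℝ W = d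

/-- `B` is negative definite on `W` -/
def NegDefOn {n : ℕ} (B : Bil n) (W : Submodule ℝ (EE n)) : Prop := ∀ v ∈ W, v ≠ 0 → val B v v < 0

/-- `B` is positive definite on `W` -/
def PosDefOn {n : ℕ} (B : Bil n) (W : Submodule ℝ (EE n)) : Prop := ∀ v ∈ W, v ≠ 0 → 0 < val B v v

/-- `B` has index `i` (and is nondegenerate) -/
def HasIndex {n : ℕ} (B : Bil n) (i : ℕ) : Prop :=
  i ≤ n ∧ ∃ W W' : Submodule ℝ (EE n), HasDim W i ∧ HasDim W' (n - i) ∧ NegDefOn B W ∧
    PosDefOn B W'

/-- `B` is nondegenerate -/
def Nondeg {n : ℕ} (B : Bil n) : Prop := ∀ v, (∀ w, val B v w = 0) → v = 0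

/-- the value of the linear functional `z` at `y` -/
noncomputable def pairing {N : ℕ} (z y : EE N) : ℝ := ⟪z, y⟫_ℝ

section manifold

variable (n : ℕ) {N : ℕ} (M : Type*) [TopologicalSpace M] [ChartedSpace (EE n) M]

/-- `M` is a smooth `n`-manifold -/
def SmoothManifold : Prop := IsManifold (𝓡 n) ∞ M

variable {M}

/-- `f` is smooth -/
def Smooth (f : M → EE N) : Prop := ContMDiff (𝓡 n) 𝓘(ℝ, EE N) ∞ f

/-- the derivative of `f` (in the chart at `p`) is injective at every point `p` -/
def Immersive (f : M → EE N) : Prop :=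
  ∀ p, Function.Injective (fderiv ℝ (loc n f p) (extChartAt (𝓡 n) p p))

theorem Immersive.mfderiv_injective {f : M → EE N} (hf : ContMDiff (𝓡 n) 𝓘(ℝ, EE N) ∞ f)
    (h : Immersive n f) (p : M) : Function.Injective (mfderiv (𝓡 n) 𝓘(ℝ, EE N) f p) := by
  have h1 : MDifferentiableAt (𝓡 n) 𝓘(ℝ, EE N) f p := hf.contMDiffAt.mdifferentiableAt (by simp)
  have h2 := h1.mfderiv
  rw [ModelWithCorners.range_eq_univ, fderivWithin_univ] at h2
  have h3 : writtenInExtChartAt (𝓡 n) 𝓘(ℝ, EE N) p f = loc n f p := by
    rw [writtenInExtChartAt, extChartAt_model_space_eq_id]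
    rfl
  rw [h3] at h2
  rw [h2]
  exact h p

/-- the image of `f` is not contained in a hyperplane -/
def Substantial (f : M → EE N) : Prop :=
  ¬ ∃ (z : EE N) (a : ℝ), z ≠ 0 ∧ ∀ p, pairing z (f p) = a

/-- `p` is a critical point of the height function of `z` -/
def IsCrit (f : M → EE N) (z : EE N) (p : M) : Prop :=
  fderiv ℝ (ht n f z p) (extChartAt (𝓡 n) p p) = 0

/-- the height function of `z` is a Morse function -/
def IsMorse (f : M → EE N) (z : EE N) : Prop := ∀ p, IsCrit n f z p → Nondeg (Hess n f z p)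

/-- the critical points of index `i` of the height function of `z` -/
def critSet (f : M → EE N) (z : EE N) (i : ℕ) : Set M :=
  {p | IsCrit n f z p ∧ HasIndex (Hess n f z p) i}

/-- every height function which is a Morse function has exactly `1, g, 0, …, 0, g, 1` critical
points of index `0, 1, 2, …, n - 2, n - 1, n` -/
def MorseTight (g : ℕ) (f : M → EE N) : Prop :=
  ∀ z : EE N, IsMorse n f z → ∀ i, (critSet n f z i).encard =
    (if i = 0 ∨ i = n then 1 else if i = 1 ∨ i + 1 = n then g else 0 : ℕ)

end manifold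

/-- Let `n ≥ 4`, `M` a compact smooth `n`-manifold and `f : M → ℝ^N` a smooth immersion whose image
is in no hyperplane.  If every height function `⟪z, f⟫` which is a Morse function has exactly
`1, g, 0, …, 0, g, 1` critical points of index `0, 1, 2, …, n - 2, n - 1, n` (the Betti numbers of
the connected sum of `g` copies of `S^(n-1) × S^1`), then the codimension `N - n` is at most
`n + 1`. -/
theorem result {n N g : ℕ} (hn : 4 ≤ n) {M : Type*} [TopologicalSpace M] [CompactSpace M]
    [Nonempty M] [ChartedSpace (EE n) M] (hM : SmoothManifold n M) (f : M → EE N)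
    (hf : Smooth n f) (himm : Immersive n f) (hsub : Substantial f) (htight : MorseTight n g f) :
    N - n ≤ n + 1 := by
  have : IsManifold (𝓡 n) ∞ M := hM
  have h := Pool.TI52.main (g := g) hn f hf (himm.mfderiv_injective n hf) hsub htight
  omega

end Pool.Agent.Results.MP_03b1c1_gt.CodimensionBound
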